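import Pool.Agent.Helper16.MD.Stmts

open Finset Filter
open scoped ComplexConjugate

namespace Pool.Agent.Helper16.MD

theorem pra_pr {D i j k : ℕ} {s : ℕ × ℕ × ℕ} (hs : s ∈ Bk D i j k) :
    2 ^ (i + j + k) < pr s ∧ pr s ≤ 8 * 2 ^ (i + j + k) ∧ (pr s).Coprime D := by
  unfold Bk at hs
  rw [Finset.mem_product, Finset.mem_product] at hs
  obtain ⟨h1, h2, h3⟩ := hs
  unfold PB at h1 h2 h3
  rw [Finset.mem_filter, Finset.mem_Ioc] at h1 h2 h3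
  obtain ⟨⟨a1, a2⟩, a3, a4⟩ := h1
  obtain ⟨⟨b1, b2⟩, b3, b4⟩ := h2
  obtain ⟨⟨c1, c2⟩, c3, c4⟩ := h3
  unfold pr
  refine ⟨?_, ?_, ?_⟩
  · rw [pow_add, pow_add, mul_assoc]
    exact Nat.mul_lt_mul'' a1 (Nat.mul_lt_mul'' b1 c1)
  · calc s.1 * (s.2.1 * s.2.2) ≤ 2 ^ (i + 1) * (2 ^ (j + 1) * 2 ^ (k + 1)) :=
        Nat.mul_le_mul a2 (Nat.mul_le_mul b2 c2)
      _ = 8 * 2 ^ (i + j + k) := by ring
  · exact Nat.Coprime.mul_left ((Nat.Prime.coprime_iff_not_dvd a3).2 a4)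
      (Nat.Coprime.mul_left ((Nat.Prime.coprime_iff_not_dvd b3).2 b4)
        ((Nat.Prime.coprime_iff_not_dvd c3).2 c4))

theorem pra_vv0 (n Λ a H P P' : ℕ) (G : ℕ → ℂ) : 0 ≤ VV n Λ a H P P' G := by
  unfold VV
  refine div_nonneg (Finset.sum_nonneg fun z _ => by positivity) (by positivity)

theorem pra_gam (SHF : ST_SHF) (n Λ a H : ℕ) (φ G ω : ℕ → ℂ) (hn : 1 ≤ n) (hΛ : 1 ≤ Λ)
    (hH : 1 ≤ H) (hb : ∀ x, ‖φ x‖ ≤ 1 ∧ ‖G x‖ ≤ 1 ∧ ‖ω x‖ ≤ 1) (hφ : ∀ x, φ (x + n) = φ x)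
    (hG : ∀ x, G (x + Λ) = G x) (P P' : ℕ) (hP : 1 ≤ P) (hP' : 1 ≤ P')
    (hc : P.Coprime (n * Λ)) (hc' : P'.Coprime (n * Λ)) :
    0 ≤ Real.sqrt (VV n Λ a H P P' G + ((P : ℝ) + P') * H / Λ) ∧
    ∀ ε : ℝ, 0 < ε → ∃ M₀ : ℕ, ∀ M : ℕ, M₀ ≤ M →
      ‖∑ y ∈ Icc 1 M, FF n Λ a φ G ω (P * y) * conj (FF n Λ a φ G ω (P' * y))‖ ≤
        (Real.sqrt (VV n Λ a H P P' G + ((P : ℝ) + P') * H / Λ) + ε) * M := by
  refine ⟨Real.sqrt_nonneg _, fun ε hε => ?_⟩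
  obtain ⟨M₀, hM⟩ := SHF n Λ a H P P' φ G ω hn hΛ hH hP hP' hc hc' hb hφ hG (ε ^ 2)
    (by positivity)
  refine ⟨M₀, fun M hM' => ?_⟩
  have h := hM M hM'
  have hx : 0 ≤ VV n Λ a H P P' G + ((P : ℝ) + P') * H / Λ :=
    add_nonneg (pra_vv0 n Λ a H P P' G) (by positivity)
  generalize VV n Λ a H P P' G + ((P : ℝ) + P') * H / Λ = x at h hx
  have h2 : x + ε ^ 2 ≤ (Real.sqrt x + ε) ^ 2 := by
    have h4 := Real.sq_sqrt hx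
    have h5 : 0 ≤ Real.sqrt x * ε := mul_nonneg (Real.sqrt_nonneg x) hε.le
    have h6 : (Real.sqrt x + ε) ^ 2 = Real.sqrt x ^ 2 + 2 * (Real.sqrt x * ε) + ε ^ 2 := by ring
    rw [h6, h4]
    linarith
  have h3 : ‖∑ y ∈ Icc 1 M, FF n Λ a φ G ω (P * y) * conj (FF n Λ a φ G ω (P' * y))‖ ^ 2 ≤
      ((Real.sqrt x + ε) * M) ^ 2 := by
    rw [mul_pow]
    exact h.trans (mul_le_mul_of_nonneg_right h2 (sq_nonneg _))
  exact (sq_le_sq₀ (norm_nonneg _)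
    (mul_nonneg (add_nonneg (Real.sqrt_nonneg _) hε.le) (Nat.cast_nonneg _))).1 h3

theorem pra_cs {ι : Type} (B : Finset ι) (x : ι → ι → ℝ) (hx : ∀ s t, 0 ≤ x s t) :
    (∑ s ∈ B, ∑ t ∈ B, Real.sqrt (x s t)) ^ 2 ≤
      (B.card : ℝ) ^ 2 * ∑ s ∈ B, ∑ t ∈ B, x s t := by
  rw [← Finset.sum_product', ← Finset.sum_product']
  have h := sq_sum_le_card_mul_sum_sq (s := B ×ˢ B) (f := fun u => Real.sqrt (x u.1 u.2))
  rw [Finset.card_product, Nat.cast_mul,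
    Finset.sum_congr rfl fun u _ => Real.sq_sqrt (hx u.1 u.2), ← sq] at h
  exact h

theorem pra_vv (n Λ a H : ℕ) (G : ℕ → ℂ) (B : Finset (ℕ × ℕ × ℕ)) (R η : ℝ) (hΛ : 1 ≤ Λ)
    (hB : B.Nonempty) (hη : 0 < η) (hR : 0 < R) (hpr : ∀ s ∈ B, (pr s : ℝ) ≤ 8 * R)
    (hH : (H : ℝ) ≤ η ^ 2 / 32 * Λ / R)
    (hK : η * (B.card : ℝ) ^ 2 ≤ ∑ s ∈ B, ∑ t ∈ B,
      Real.sqrt (VV n Λ a H (pr s) (pr t) G + ((pr s : ℝ) + pr t) * H / Λ)) :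
    η ^ 2 / 2 * (B.card : ℝ) ^ 2 ≤ ∑ s ∈ B, ∑ t ∈ B, VV n Λ a H (pr s) (pr t) G := by
  have hb : 0 < (B.card : ℝ) := by exact_mod_cast hB.card_pos
  have hΛ0 : 0 < (Λ : ℝ) := by exact_mod_cast hΛ
  have h1 := pra_cs B (fun s t => VV n Λ a H (pr s) (pr t) G + ((pr s : ℝ) + pr t) * H / Λ)
    (fun s t => add_nonneg (pra_vv0 _ _ _ _ _ _ _) (by positivity))
  have h2 : (η * (B.card : ℝ) ^ 2) ^ 2 ≤ (B.card : ℝ) ^ 2 * ∑ s ∈ B, ∑ t ∈ B,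
      (VV n Λ a H (pr s) (pr t) G + ((pr s : ℝ) + pr t) * H / Λ) :=
    (pow_le_pow_left₀ (by positivity) hK 2).trans h1
  have h3 : η ^ 2 * (B.card : ℝ) ^ 2 ≤ ∑ s ∈ B, ∑ t ∈ B,
      (VV n Λ a H (pr s) (pr t) G + ((pr s : ℝ) + pr t) * H / Λ) := by
    refine le_of_mul_le_mul_left ?_ (pow_pos hb 2)
    refine le_trans (le_of_eq ?_) h2
    ring
  have h4 : ∑ s ∈ B, ∑ t ∈ B, (VV n Λ a H (pr s) (pr t) G + ((pr s : ℝ) + pr t) * H / Λ) ≤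
      ∑ s ∈ B, ∑ t ∈ B, (VV n Λ a H (pr s) (pr t) G + η ^ 2 / 2) := by
    refine Finset.sum_le_sum fun s hs => Finset.sum_le_sum fun t ht => ?_
    have h5 : ((pr s : ℝ) + pr t) * H / Λ ≤ η ^ 2 / 2 := by
      rw [div_le_iff₀ hΛ0]
      have h6 : ((pr s : ℝ) + pr t) * H ≤ (16 * R) * (η ^ 2 / 32 * Λ / R) :=
        mul_le_mul (by linarith [hpr s hs, hpr t ht]) hH (Nat.cast_nonneg _) (by positivity)
      refine h6.trans (le_of_eq ?_)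
      field_simp
      ring
    linarith
  have h5 : ∑ s ∈ B, ∑ t ∈ B, (VV n Λ a H (pr s) (pr t) G + η ^ 2 / 2) =
      ∑ s ∈ B, ∑ t ∈ B, VV n Λ a H (pr s) (pr t) G + η ^ 2 / 2 * (B.card : ℝ) ^ 2 := by
    rw [Finset.sum_congr rfl fun s _ => Finset.sum_add_distrib, Finset.sum_add_distrib]
    rw [Finset.sum_const, Finset.sum_const, smul_smul, nsmul_eq_mul, Nat.cast_mul]
    ring
  rw [h5] at h4
  have h7 := h3.trans h4
  have h8 : η ^ 2 * (B.card : ℝ) ^ 2 = η ^ 2 / 2 * (B.card : ℝ) ^ 2 +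
      η ^ 2 / 2 * (B.card : ℝ) ^ 2 := by ring
  linarith

theorem pra_fou (EXV : ST_EXV) (FOU : ST_FOU) (AUT : ST_AUT) (n Λ T a H : ℕ) (G : ℕ → ℂ)
    (B : Finset (ℕ × ℕ × ℕ)) (ρ κ : ℝ) (hn : 1 ≤ n) (hΛ : 1 ≤ Λ) (hT : 1 ≤ T) (hH : 1 ≤ H)
    (hρ : 0 ≤ ρ) (hcop : ∀ s ∈ B, (pr s).Coprime (n * Λ)) (hG1 : ∀ x, ‖G x‖ ≤ 1)
    (hGp : ∀ x, G (x + Λ) = G x)
    (hric : ∀ Z : ZMod (n * Λ), Z ≠ 0 → ((B.filter fun s =>
      |((pr s : ZMod (n * Λ))⁻¹ * Z).valMinAbs| ≤ ((T * Λ : ℕ) : ℤ)).card : ℝ) ≤ ρ * B.card)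
    (hρT : 2 * ρ + 2 / T ≤ κ) (hB : B.Nonempty)
    (hV : 2 * κ * (B.card : ℝ) ^ 2 ≤ ∑ s ∈ B, ∑ t ∈ B, VV n Λ a H (pr s) (pr t) G) :
    κ * B.card * (H : ℝ) ^ 2 ≤ ∑ s ∈ B, ∑ ξ ∈ range Λ, ∑ ξ' ∈ range Λ,
      nu Λ G ξ * nu Λ G ξ' * ‖∑ h ∈ range H, ee ((pr s : ℝ) * h * ((ξ : ℝ) - ξ') / Λ)‖ ^ 2 := by
  have hb : 0 < (B.card : ℝ) := by exact_mod_cast hB.card_pos
  have hΛ0 : 0 < (Λ : ℝ) := by exact_mod_cast hΛ
  have hn0 : 0 < (n : ℝ) := by exact_mod_cast hn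
  have hH0 : 0 < (H : ℝ) := by exact_mod_cast hH
  set m : ℕ × ℕ × ℕ → ℕ → ℕ → ℂ := fun s h h' =>
    (∑ x ∈ range Λ, G (x + pr s * h) * conj (G (x + pr s * h'))) / (Λ : ℂ) with hm
  have e1 : ∀ h h' : ℕ, ∑ z ∈ range (n * Λ), ‖∑ s ∈ B,
      G ((pr s * z + a) / n + pr s * h) * conj (G ((pr s * z + a) / n + pr s * h'))‖ ^ 2 ≤
      ((n : ℝ) * Λ) * (κ * (B.card : ℝ) ^ 2 + B.card * ∑ s ∈ B, ‖m s h h'‖ ^ 2) := by
    intro h h'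
    have h1 := FOU n Λ T a B (fun s x => G (x + pr s * h) * conj (G (x + pr s * h'))) ρ hn hΛ hT
      hρ hcop (fun s x => by
        rw [norm_mul, RCLike.norm_conj]
        exact mul_le_one₀ (hG1 _) (norm_nonneg _) (hG1 _))
      (fun s x => by
        show G (x + Λ + pr s * h) * conj (G (x + Λ + pr s * h')) = _
        rw [show x + Λ + pr s * h = (x + pr s * h) + Λ by ring,
          show x + Λ + pr s * h' = (x + pr s * h') + Λ by ring, hGp, hGp]) hric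
    have h2 : ‖∑ s ∈ B, m s h h'‖ ^ 2 ≤ B.card * ∑ s ∈ B, ‖m s h h'‖ ^ 2 :=
      (pow_le_pow_left₀ (norm_nonneg _) (norm_sum_le _ _) 2).trans sq_sum_le_card_mul_sum_sq
    have h3 : (2 * ρ + 2 / T) * (B.card : ℝ) ^ 2 ≤ κ * (B.card : ℝ) ^ 2 :=
      mul_le_mul_of_nonneg_right hρT (sq_nonneg _)
    have h4 := h1.trans (add_le_add h3 h2)
    rw [div_le_iff₀ (mul_pos hn0 hΛ0)] at h4
    exact h4.trans (le_of_eq (mul_comm _ _))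
  rw [EXV, le_div_iff₀ (by positivity)] at hV
  have e2 : ∑ h ∈ range H, ∑ h' ∈ range H, ∑ z ∈ range (n * Λ), ‖∑ s ∈ B,
      G ((pr s * z + a) / n + pr s * h) * conj (G ((pr s * z + a) / n + pr s * h'))‖ ^ 2 ≤
      ∑ h ∈ range H, ∑ h' ∈ range H,
      ((n : ℝ) * Λ) * (κ * (B.card : ℝ) ^ 2 + B.card * ∑ s ∈ B, ‖m s h h'‖ ^ 2) :=
    Finset.sum_le_sum fun h _ => Finset.sum_le_sum fun h' _ => e1 h h'
  have e3 : ∑ h ∈ range H, ∑ h' ∈ range H,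
      ((n : ℝ) * Λ) * (κ * (B.card : ℝ) ^ 2 + B.card * ∑ s ∈ B, ‖m s h h'‖ ^ 2) =
      ((n : ℝ) * Λ) * (κ * (B.card : ℝ) ^ 2 * (H : ℝ) ^ 2 + B.card *
        ∑ s ∈ B, ∑ h ∈ range H, ∑ h' ∈ range H, ‖m s h h'‖ ^ 2) := by
    have h1 : ∑ s ∈ B, ∑ h ∈ range H, ∑ h' ∈ range H, ‖m s h h'‖ ^ 2 =
        ∑ h ∈ range H, ∑ h' ∈ range H, ∑ s ∈ B, ‖m s h h'‖ ^ 2 := by
      rw [Finset.sum_comm]
      exact Finset.sum_congr rfl fun h _ => Finset.sum_comm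
    rw [h1]
    simp only [← Finset.mul_sum, Finset.sum_add_distrib, Finset.sum_const, Finset.card_range,
      nsmul_eq_mul]
    ring
  have e4 := hV.trans (e2.trans (le_of_eq e3))
  have e5 : ((n : ℝ) * Λ) * (2 * κ * (B.card : ℝ) ^ 2 * (H : ℝ) ^ 2) ≤
      ((n : ℝ) * Λ) * (κ * (B.card : ℝ) ^ 2 * (H : ℝ) ^ 2 + B.card *
        ∑ s ∈ B, ∑ h ∈ range H, ∑ h' ∈ range H, ‖m s h h'‖ ^ 2) := by
    refine le_trans (le_of_eq ?_) e4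
    ring
  have e6 := le_of_mul_le_mul_left e5 (mul_pos hn0 hΛ0)
  have e7 : (B.card : ℝ) * (κ * B.card * (H : ℝ) ^ 2) ≤
      B.card * ∑ s ∈ B, ∑ h ∈ range H, ∑ h' ∈ range H, ‖m s h h'‖ ^ 2 := by
    have h1 : 2 * κ * (B.card : ℝ) ^ 2 * (H : ℝ) ^ 2 =
      κ * (B.card : ℝ) ^ 2 * (H : ℝ) ^ 2 + (B.card : ℝ) * (κ * B.card * (H : ℝ) ^ 2) := by ring
    linarith
  have e8 := le_of_mul_le_mul_left e7 hb
  refine e8.trans (le_of_eq (Finset.sum_congr rfl fun s _ => ?_))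
  exact AUT Λ (pr s) H G hΛ hGp

theorem st_PRA (KAT : ST_KAT) (WND : ST_WND) (SHF : ST_SHF) (EXV : ST_EXV) (FOU : ST_FOU)
    (RIC : ST_RIC) (AUT : ST_AUT) (NUS : ST_NUS) (CNC : ST_CNC) (NCP : ST_NCP)
    (PAR : ST_PAR) : ST_PRA := by
  intro η hη hη1
  obtain ⟨K, hK, hW⟩ := WND (64 / η ^ 2)
  obtain ⟨e, he⟩ : ∃ e : ℝ, e = (η / 32) ^ 2 := ⟨_, rfl⟩
  have he0 : 0 < e := by rw [he]; positivity
  have he1 : e ≤ 1 := by
    rw [he]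
    exact pow_le_one₀ (by positivity) (by linarith)
  obtain ⟨c2, hc2⟩ : ∃ c2 : ℝ, c2 = e ^ 2 / 32 := ⟨_, rfl⟩
  have hc20 : 0 < c2 := by rw [hc2]; positivity
  obtain ⟨κ, hκ⟩ : ∃ κ : ℝ, κ = e ^ 2 / 4 := ⟨_, rfl⟩
  have hκ0 : 0 < κ := by rw [hκ]; positivity
  have hκ1 : κ ≤ 1 := by
    rw [hκ]
    have := pow_le_one₀ (n := 2) he0.le he1
    linarith
  obtain ⟨T, hT⟩ : ∃ T : ℕ, T = ⌈16 / e ^ 2⌉₊ := ⟨_, rfl⟩
  have hTle : 16 / e ^ 2 ≤ T := by rw [hT]; exact Nat.le_ceil _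
  have hT0 : (0 : ℝ) < T := lt_of_lt_of_le (by positivity) hTle
  have hT1 : 1 ≤ T := by exact_mod_cast hT0
  have hρT : 2 * (e ^ 2 / 16) + 2 / T ≤ κ := by
    have h1 : 2 / (T : ℝ) ≤ e ^ 2 / 8 := by
      rw [div_le_iff₀ hT0]
      have h2 : e ^ 2 / 8 * (16 / e ^ 2) ≤ e ^ 2 / 8 * T :=
        mul_le_mul_of_nonneg_left hTle (by positivity)
      have h3 : e ^ 2 / 8 * (16 / e ^ 2) = 2 := by
        field_simp
        norm_num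
      linarith
    rw [hκ]
    linarith
  obtain ⟨C', hC'⟩ : ∃ C' : ℝ, C' = max 1 (2 / (c2 * Real.sqrt κ)) := ⟨_, rfl⟩
  have hC'1 : 1 ≤ C' := by rw [hC']; exact le_max_left _ _
  have hC'2 : 2 / (c2 * Real.sqrt κ) ≤ C' := by rw [hC']; exact le_max_right _ _
  have hsκ : 0 < Real.sqrt κ := Real.sqrt_pos.2 hκ0
  refine ⟨κ / (2 * (2 * C' + 1)), by positivity, ?_⟩
  obtain ⟨n₀, I₀, hn₀, hR⟩ := RIC (e ^ 2 / 16) (800 * K ^ 2) T (by positivity) hT1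
  refine ⟨n₀, fun n hn => ?_⟩
  obtain ⟨C, hC⟩ : ∃ C : ℝ, C = max (24 / η) (max (2 / c2) (max (16 * C' + 1)
    (4 * (72 / κ + 2)))) := ⟨_, rfl⟩
  have hCa : 24 / η ≤ C := by rw [hC]; exact le_max_left _ _
  have hCb : 2 / c2 ≤ C := by
    rw [hC]; exact (le_max_left _ _).trans (le_max_right _ _)
  have hCc : 16 * C' + 1 ≤ C := by
    rw [hC]; exact (le_max_left _ _).trans ((le_max_right _ _).trans (le_max_right _ _))
  have hCd : 4 * (72 / κ + 2) ≤ C := by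
    rw [hC]; exact (le_max_right _ _).trans ((le_max_right _ _).trans (le_max_right _ _))
  obtain ⟨Λ₀, hΛ₀, hPA⟩ := PAR K I₀ n C hK (hn₀.trans hn)
  refine ⟨Λ₀, fun Λ a φ G ω hΛ hb hφ hG hfreq => ?_⟩
  obtain ⟨I, hI₀, hI1, hD2, hP⟩ := hPA Λ hΛ
  have hΛ1 : 1 ≤ Λ := hΛ₀.trans hΛ
  have hn1 : 1 ≤ n := hn₀.trans hn
  have hD1 : 1 ≤ n * Λ := Nat.mul_pos hn1 hΛ1
  have hKI : I < K * I := lt_of_lt_of_le (by omega) (Nat.mul_le_mul_right I hK)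
  have h11 : I ≤ 11 * K * I := Nat.le_mul_of_pos_left I (by omega)
  have hKI' : 11 * K * I < K * (11 * K * I) :=
    lt_of_lt_of_le (by omega) (Nat.mul_le_mul_right (11 * K * I) hK)
  have hW1 := hW I (n * Λ) hI1 hD1 hD2
  have hW2 := hW (11 * K * I) (n * Λ) (hI1.trans h11) hD1
    (hD2.trans (Nat.pow_le_pow_right (by norm_num) (Nat.pow_le_pow_right (by norm_num) h11)))
  have memR : ∀ (J i : ℕ), i ∈ RW (n * Λ) J K → J ≤ i ∧ i < K * J ∧ Rich (n * Λ) i := by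
    intro J i hi
    unfold RW at hi
    rw [Finset.mem_filter, Finset.mem_Ico] at hi
    exact ⟨hi.1.1, hi.1.2, hi.2⟩
  have hf : ∀ x, ‖FF n Λ a φ G ω x‖ ≤ 1 := by
    intro x
    unfold FF
    rw [norm_mul, norm_mul]
    exact mul_le_one₀ (mul_le_one₀ (hb _).1 (norm_nonneg _) (hb _).2.1) (norm_nonneg _)
      (hb _).2.2
  obtain ⟨i, hi, j, hj, k, hk, hΓ⟩ := KAT η (n * Λ) (RW (n * Λ) I K) (RW (n * Λ) I K)
    (RW (n * Λ) (11 * K * I) K) (FF n Λ a φ G ω) hη hD1 hf (by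
      intro i hi
      rw [Finset.mem_union, Finset.mem_union] at hi
      rcases hi with (hi | hi) | hi
      · obtain ⟨h1, h2, _⟩ := memR _ _ hi
        exact hCa.trans (hP i i (11 * K * I) h1 h2 h1 h2 le_rfl hKI').2.2.2.2.2.2.2.2.2.1
      · obtain ⟨h1, h2, _⟩ := memR _ _ hi
        exact hCa.trans (hP i i (11 * K * I) h1 h2 h1 h2 le_rfl hKI').2.2.2.2.2.2.2.2.2.1
      · obtain ⟨h1, h2, _⟩ := memR _ _ hi
        exact hCa.trans (hP I I i le_rfl hKI le_rfl hKI h1 h2).2.2.2.2.2.2.2.2.2.2.2)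
    hW1 hW1 hW2 hfreq
  obtain ⟨i1, i2, i3⟩ := memR _ _ hi
  obtain ⟨j1, j2, j3⟩ := memR _ _ hj
  obtain ⟨k1, k2, k3⟩ := memR _ _ hk
  obtain ⟨p1, p2, p3, p4, p5, p6, p7, p8, p9, p10, p11, p12⟩ := hP i j k i1 i2 j1 j2 k1 k2
  have hpar : Par (800 * K ^ 2) n Λ i j k := ⟨p1, p2, p3, p4, p5, i3, j3, k3⟩
  have hric := hR n Λ i j k hn hΛ1 (hI₀.trans i1) (hI₀.trans j1) hpar
  obtain ⟨R, hRdef⟩ : ∃ R : ℕ, R = 2 ^ (i + j + k) := ⟨_, rfl⟩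
  have hR1 : 1 ≤ R := by rw [hRdef]; exact Nat.one_le_two_pow
  have hR1' : (1 : ℝ) ≤ R := by exact_mod_cast hR1
  have hR0 : (0 : ℝ) < R := by linarith
  have hΛ0 : (0 : ℝ) < Λ := by exact_mod_cast hΛ1
  have p6' : C * (R : ℝ) ^ 2 < Λ := by
    have h1 : (R : ℝ) = (2 : ℝ) ^ (i + j + k) := by rw [hRdef]; push_cast; ring
    rw [h1]
    exact p6
  have hC0 : 0 < C := lt_of_lt_of_le (by positivity) hCa
  have hx2 : 2 ≤ c2 * Λ / R := by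
    rw [le_div_iff₀ hR0]
    have h1 : 2 ≤ c2 * C := by
      have h2 : c2 * (2 / c2) ≤ c2 * C := mul_le_mul_of_nonneg_left hCb hc20.le
      have h3 : c2 * (2 / c2) = 2 := by field_simp
      linarith
    have h4 : c2 * (C * (R : ℝ) ^ 2) ≤ c2 * Λ := mul_le_mul_of_nonneg_left p6'.le hc20.le
    have h5 : 2 * (R : ℝ) ≤ c2 * C * (R : ℝ) ^ 2 := by
      have h6 : (R : ℝ) ≤ (R : ℝ) ^ 2 := by
        rw [sq]
        exact le_mul_of_one_le_left hR0.le hR1'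
      exact mul_le_mul h1 h6 hR0.le (by positivity)
    calc 2 * (R : ℝ) ≤ c2 * C * (R : ℝ) ^ 2 := h5
      _ = c2 * (C * (R : ℝ) ^ 2) := by ring
      _ ≤ c2 * Λ := h4
  obtain ⟨H, hHdef⟩ : ∃ H : ℕ, H = ⌊c2 * Λ / R⌋₊ := ⟨_, rfl⟩
  have hHle : (H : ℝ) ≤ c2 * Λ / R := by
    rw [hHdef]
    exact Nat.floor_le (by positivity)
  have hHlt : c2 * Λ / R < H + 1 := by
    rw [hHdef]
    exact Nat.lt_floor_add_one _
  have hH1' : (1 : ℝ) < (H : ℝ) := by linarith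
  have hH1 : 1 ≤ H := by
    have : (1 : ℝ) ≤ (H : ℝ) := hH1'.le
    exact_mod_cast this
  have hKk := hΓ (fun P P' => Real.sqrt (VV n Λ a H P P' G + ((P : ℝ) + P') * H / Λ))
    (fun P P' h1 h2 h3 h4 => pra_gam SHF n Λ a H φ G ω hn1 hΛ1 hH1 hb hφ hG P P' h1 h2 h3 h4)
  -- many primes
  have hcard : ∀ i : ℕ, 1 ≤ i → Rich (n * Λ) i → C * i ≤ 2 ^ i →
      ⌈72 / κ⌉₊ ≤ (PB (n * Λ) i).card := by
    intro i hi1 hri hCi
    unfold Rich at hri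
    have hi0 : (0 : ℝ) < i := by exact_mod_cast hi1
    have h1 : C * i ≤ 4 * i * ((PB (n * Λ) i).card : ℝ) := by
      refine hCi.trans ?_
      exact_mod_cast hri
    have h2 : C ≤ 4 * ((PB (n * Λ) i).card : ℝ) := by
      refine le_of_mul_le_mul_right ?_ hi0
      calc C * i ≤ 4 * i * ((PB (n * Λ) i).card : ℝ) := h1
        _ = 4 * ((PB (n * Λ) i).card : ℝ) * i := by ring
    have h3 : 72 / κ ≤ ((PB (n * Λ) i).card : ℝ) := by linarith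
    exact Nat.ceil_le.2 h3
  have hmi := hcard i (hI1.trans i1) i3 p7
  have hmj := hcard j (hI1.trans j1) j3 p8
  have hmk := hcard k ((hI1.trans h11).trans k1) k3 p9
  have hmpos : 0 < ⌈72 / κ⌉₊ := Nat.ceil_pos.2 (by positivity)
  have hBne : (Bk (n * Λ) i j k).Nonempty := by
    unfold Bk
    exact Finset.Nonempty.product (Finset.card_pos.1 (lt_of_lt_of_le hmpos hmi))
      (Finset.Nonempty.product (Finset.card_pos.1 (lt_of_lt_of_le hmpos hmj))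
        (Finset.card_pos.1 (lt_of_lt_of_le hmpos hmk)))
  have hV := pra_vv n Λ a H G (Bk (n * Λ) i j k) R e hΛ1 hBne he0 hR0
    (fun s hs => by
      have h1 := (pra_pr hs).2.1
      rw [← hRdef] at h1
      exact_mod_cast h1)
    (by rw [← hc2]; exact hHle) (by rw [he]; exact hKk)
  have hFo := pra_fou EXV FOU AUT n Λ T a H G (Bk (n * Λ) i j k) (e ^ 2 / 16) κ hn1 hΛ1 hT1 hH1
    (by positivity) (fun s hs => (pra_pr hs).2.2) (fun x => (hb x).2.1) hG hric hρT hBne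
    (by
      refine le_trans (le_of_eq ?_) hV
      rw [hκ]
      ring)
  obtain ⟨ξ, hξ, hν⟩ := CNC Λ R H κ C' (Bk (n * Λ) i j k) (nu Λ G) hΛ1 hR1 hH1 hκ0 hκ1 hC'1 hBne
    (fun s hs => by
      obtain ⟨h1, h2, h3⟩ := pra_pr hs
      rw [← hRdef] at h1 h2
      exact ⟨h1, h2, Nat.Coprime.coprime_mul_left_right h3⟩)
    (fun s hs => by
      have h1 := NCP (n * Λ) i j k ⌈72 / κ⌉₊ s hs hmi hmj hmk
      have h2 : ((⌈72 / κ⌉₊ : ℕ) : ℝ) *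
          (((Bk (n * Λ) i j k).filter fun t => ¬ (pr s).Coprime (pr t)).card : ℝ) ≤
          9 * ((Bk (n * Λ) i j k).card : ℝ) := by exact_mod_cast h1
      have h3 : 72 / κ ≤ ((⌈72 / κ⌉₊ : ℕ) : ℝ) := Nat.le_ceil _
      have h4 : 72 / κ * (((Bk (n * Λ) i j k).filter fun t => ¬ (pr s).Coprime (pr t)).card : ℝ) ≤
          9 * ((Bk (n * Λ) i j k).card : ℝ) :=
        (mul_le_mul_of_nonneg_right h3 (Nat.cast_nonneg _)).trans h2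
      have h5 : κ * (72 / κ * (((Bk (n * Λ) i j k).filter
          fun t => ¬ (pr s).Coprime (pr t)).card : ℝ)) ≤
          κ * (9 * ((Bk (n * Λ) i j k).card : ℝ)) := mul_le_mul_of_nonneg_left h4 hκ0.le
      have h6 : κ * (72 / κ * (((Bk (n * Λ) i j k).filter
          fun t => ¬ (pr s).Coprime (pr t)).card : ℝ)) =
          72 * (((Bk (n * Λ) i j k).filter fun t => ¬ (pr s).Coprime (pr t)).card : ℝ) := by
        field_simp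
      linarith)
    (by
      have h1 : c2 * Λ / R / 2 ≤ H := by linarith
      have h2 : 2 / c2 ≤ C' * Real.sqrt κ := by
        have h3 : 2 / (c2 * Real.sqrt κ) * Real.sqrt κ ≤ C' * Real.sqrt κ :=
          mul_le_mul_of_nonneg_right hC'2 hsκ.le
        have h4 : 2 / (c2 * Real.sqrt κ) * Real.sqrt κ = 2 / c2 := by
          field_simp
        linarith
      calc (Λ : ℝ) = 2 / c2 * (c2 * Λ / R / 2) * R := by field_simp
        _ ≤ C' * Real.sqrt κ * H * R :=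
          mul_le_mul_of_nonneg_right (mul_le_mul h2 h1 (by positivity) (by positivity)) hR0.le)
    (by
      refine lt_of_le_of_lt (mul_le_mul_of_nonneg_right ?_ (sq_nonneg _)) p6'
      linarith)
    (fun ξ => by unfold nu; positivity) (NUS Λ G hΛ1 (fun x => (hb x).2.1)) hFo
  refine ⟨-(ξ : ℝ) / Λ, ?_⟩
  have hnu : nu Λ G ξ = ‖(∑ s ∈ range Λ, G s * ee (-(ξ : ℝ) / Λ * s)) / (Λ : ℂ)‖ ^ 2 := by
    unfold nu
    have h1 : ∀ s ∈ range Λ, G s * ee (-((ξ : ℝ) * s) / Λ) = G s * ee (-(ξ : ℝ) / Λ * s) := by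
      intro s _
      rw [show -((ξ : ℝ) * s) / Λ = -(ξ : ℝ) / Λ * s by ring]
    rw [Finset.sum_congr rfl h1]
  rw [hnu] at hν
  have hee : ∀ x : ℝ, ‖ee x‖ = 1 := by
    intro x
    unfold ee
    exact Complex.norm_exp_ofReal_mul_I _
  have hle1 : ‖(∑ s ∈ range Λ, G s * ee (-(ξ : ℝ) / Λ * s)) / (Λ : ℂ)‖ ≤ 1 := by
    rw [norm_div, Complex.norm_natCast, div_le_one hΛ0]
    calc ‖∑ s ∈ range Λ, G s * ee (-(ξ : ℝ) / Λ * s)‖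
        ≤ ∑ s ∈ range Λ, ‖G s * ee (-(ξ : ℝ) / Λ * s)‖ := norm_sum_le _ _
      _ ≤ ∑ s ∈ range Λ, (1 : ℝ) := by
          refine Finset.sum_le_sum fun s _ => ?_
          rw [norm_mul, hee, mul_one]
          exact (hb s).2.1
      _ = Λ := by rw [Finset.sum_const, Finset.card_range, nsmul_eq_mul, mul_one]
  refine hν.trans ?_
  rw [sq]
  exact mul_le_of_le_one_left (norm_nonneg _) hle1

end Pool.Agent.Helper16.MD
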